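import Mathlib

set_option autoImplicit false

open Filter Topology

namespace Pool.Agent.Results.MP_7e65d6_nt.NotRelIntersective

/-- The positive integers, as a set of natural numbers. -/
def Pos : Set ℕ := {n : ℕ | 1 ≤ n}

/-- The upper density of `A` relative to `E`:
`limsup_{N → ∞} |A ∩ E ∩ [1, N]| / |E ∩ [1, N]|`. -/
noncomputable def relUpperDensity (E A : Set ℕ) : ℝ :=
  limsup (fun N : ℕ =>
    ((A ∩ E ∩ Set.Icc 1 N).ncard : ℝ) / ((E ∩ Set.Icc 1 N).ncard : ℝ)) atTop

/-- `R` is `E`-intersective: `R` meets the difference set `A - A` (taken in `ℤ`) of every subset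
`A` of `E` of positive upper density relative to `E`. -/
def RelIntersective (E R : Set ℕ) : Prop :=
  ∀ A : Set ℕ, A ⊆ E → 0 < relUpperDensity E A →
    ∃ r ∈ R, ∃ a ∈ A, ∃ b ∈ A, (r : ℤ) = (a : ℤ) - (b : ℤ)

/-- `R` is intersective: the case `E = {1, 2, 3, ...}`. -/
def Intersective (R : Set ℕ) : Prop := RelIntersective Pos R

/-- The upper Banach density
`d^*(E) = lim_{N → ∞} sup_{M ≥ 1} |E ∩ [M, M + N)| / N` (the `M` of the text is `M + 1` below). -/
noncomputable def upperBanachDensity (E : Set ℕ) : ℝ :=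
  limUnder atTop (fun N : ℕ =>
    (⨆ M : ℕ, ((E ∩ Set.Ico (M + 1) (M + 1 + N)).ncard : ℝ)) / (N : ℝ))

/-! ### Window counts -/

/-- the supremum of the counts over windows of length `L`. -/
noncomputable def win (E : Set ℕ) (L : ℕ) : ℝ :=
  ⨆ M : ℕ, ((E ∩ Set.Ico (M + 1) (M + 1 + L)).ncard : ℝ)

lemma ncard_window_le (E : Set ℕ) (M L : ℕ) :
    ((E ∩ Set.Ico (M + 1) (M + 1 + L)).ncard : ℝ) ≤ L := by
  have h1 : (E ∩ Set.Ico (M + 1) (M + 1 + L)).ncard ≤ (Set.Ico (M + 1) (M + 1 + L)).ncard :=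
    Set.ncard_le_ncard Set.inter_subset_right (Set.finite_Ico _ _)
  have h2 : (Set.Ico (M + 1) (M + 1 + L)).ncard = L := by
    rw [← Finset.coe_Ico, Set.ncard_coe_finset]
    simp
  exact_mod_cast h1.trans h2.le

lemma bdd_window (E : Set ℕ) (L : ℕ) :
    BddAbove (Set.range fun M : ℕ => ((E ∩ Set.Ico (M + 1) (M + 1 + L)).ncard : ℝ)) :=
  ⟨L, by rintro _ ⟨M, rfl⟩; exact ncard_window_le E M L⟩

lemma window_le_win (E : Set ℕ) (M L : ℕ) :
    ((E ∩ Set.Ico (M + 1) (M + 1 + L)).ncard : ℝ) ≤ win E L :=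
  le_ciSup (bdd_window E L) M

lemma win_nonneg (E : Set ℕ) (L : ℕ) : 0 ≤ win E L :=
  (Nat.cast_nonneg _).trans (window_le_win E 0 L)

lemma win_subadditive (E : Set ℕ) : Subadditive (win E) := by
  intro m n
  apply ciSup_le
  intro M
  have h : E ∩ Set.Ico (M + 1) (M + 1 + (m + n)) ⊆
      (E ∩ Set.Ico (M + 1) (M + 1 + m)) ∪ (E ∩ Set.Ico (M + m + 1) (M + m + 1 + n)) := by
    rintro x ⟨hx, h1, h2⟩
    by_cases hxm : x < M + 1 + m
    · exact Or.inl ⟨hx, h1, hxm⟩
    · exact Or.inr ⟨hx, by omega, by omega⟩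
  have hfin : ((E ∩ Set.Ico (M + 1) (M + 1 + m)) ∪
      (E ∩ Set.Ico (M + m + 1) (M + m + 1 + n))).Finite :=
    ((Set.finite_Ico _ _).inter_of_right _).union ((Set.finite_Ico _ _).inter_of_right _)
  have h1 := (Set.ncard_le_ncard h hfin).trans (Set.ncard_union_le _ _)
  have h2 : ((E ∩ Set.Ico (M + 1) (M + 1 + (m + n))).ncard : ℝ) ≤
      ((E ∩ Set.Ico (M + 1) (M + 1 + m)).ncard : ℝ) +
      ((E ∩ Set.Ico (M + m + 1) (M + m + 1 + n)).ncard : ℝ) := by
    exact_mod_cast h1
  exact h2.trans (add_le_add (window_le_win E M m) (window_le_win E (M + m) n))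

lemma tendsto_win (E : Set ℕ) (hd : upperBanachDensity E = 0) :
    Tendsto (fun N : ℕ => win E N / (N : ℝ)) atTop (𝓝 0) := by
  have hb : BddBelow (Set.range fun n : ℕ => win E n / (n : ℝ)) :=
    ⟨0, by rintro _ ⟨n, rfl⟩; exact div_nonneg (win_nonneg E n) (Nat.cast_nonneg n)⟩
  have h1 := (win_subadditive E).tendsto_lim hb
  have h2 : upperBanachDensity E = (win_subadditive E).lim := h1.limUnder_eq
  rw [← h2, hd] at h1
  exact h1

/-! ### Pair counts -/

open Classical in
/-- `E ∩ [1, N]` as a finite set. -/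
noncomputable def EN (E : Set ℕ) (N : ℕ) : Finset ℕ := (Finset.Icc 1 N).filter (fun a => a ∈ E)

open Classical in
/-- the elements `a` of `E ∩ [1, N]` with `a - r ∈ E`. -/
noncomputable def DN (E : Set ℕ) (N r : ℕ) : Finset ℕ := (EN E N).filter (fun a => a - r ∈ E)

/-- the proportion of such elements. -/
noncomputable def PN (E : Set ℕ) (N r : ℕ) : ℝ := ((DN E N r).card : ℝ) / ((EN E N).card : ℝ)

lemma PN_nonneg (E : Set ℕ) (N r : ℕ) : 0 ≤ PN E N r := by
  unfold PN; positivity

lemma PN_le_one (E : Set ℕ) (N r : ℕ) : PN E N r ≤ 1 := by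
  classical
  unfold PN
  apply div_le_one_of_le₀
  · have h : DN E N r ⊆ EN E N := by
      unfold DN
      exact Finset.filter_subset _ _
    exact_mod_cast Finset.card_le_card h
  · positivity

lemma window_sum_card (E : Set ℕ) (hE : E ⊆ Pos) (N M L : ℕ) :
    ((∑ r ∈ Finset.Ico M (M + L), (DN E N r).card : ℕ) : ℝ) ≤ (EN E N).card * win E L := by
  classical
  have h1 : (∑ r ∈ Finset.Ico M (M + L), (DN E N r).card) =
      ∑ a ∈ EN E N, ((Finset.Ico M (M + L)).filter (fun r => a - r ∈ E)).card := by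
    simp only [DN, Finset.card_filter]
    exact Finset.sum_comm
  rw [h1]
  push_cast
  have h2 : ∀ a ∈ EN E N,
      ((((Finset.Ico M (M + L)).filter (fun r => a - r ∈ E)).card : ℕ) : ℝ) ≤ win E L := by
    intro a _
    refine le_trans ?_ (window_le_win E (a - M - L) L)
    have h3 : ((Finset.Ico M (M + L)).filter (fun r => a - r ∈ E)).card ≤
        (E ∩ Set.Ico (a - M - L + 1) (a - M - L + 1 + L)).ncard := by
      have hinj : Set.InjOn (fun r : ℕ => a - r)
          (((Finset.Ico M (M + L)).filter (fun r => a - r ∈ E) : Finset ℕ) : Set ℕ) := by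
        intro x hx y hy hxy
        simp only [Finset.coe_filter, Finset.mem_Ico, Set.mem_ofPred_eq] at hx hy
        have hx1 : 1 ≤ a - x := hE hx.2
        have hy1 : 1 ≤ a - y := hE hy.2
        simp only at hxy
        omega
      rw [← Finset.card_image_of_injOn hinj, ← Set.ncard_coe_finset]
      apply Set.ncard_le_ncard
      · intro x hx
        simp only [Finset.coe_image, Finset.coe_filter, Finset.mem_Ico, Set.mem_image,
          Set.mem_ofPred_eq] at hx
        obtain ⟨r, ⟨⟨hr1, hr2⟩, hr3⟩, rfl⟩ := hx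
        have : 1 ≤ a - r := hE hr3
        refine ⟨hr3, ?_, ?_⟩ <;> omega
      · exact (Set.finite_Ico _ _).inter_of_right _
    exact_mod_cast h3
  calc (∑ a ∈ EN E N, ((((Finset.Ico M (M + L)).filter (fun r => a - r ∈ E)).card : ℕ) : ℝ))
      ≤ ∑ _a ∈ EN E N, win E L := Finset.sum_le_sum h2
    _ = (EN E N).card * win E L := by rw [Finset.sum_const, nsmul_eq_mul]

lemma window_sum_PN (E : Set ℕ) (hE : E ⊆ Pos) (N M L : ℕ) :
    ∑ r ∈ Finset.Ico M (M + L), PN E N r ≤ win E L := by
  unfold PN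
  rw [← Finset.sum_div]
  have h := window_sum_card E hE N M L
  push_cast at h
  rcases Nat.eq_zero_or_pos (EN E N).card with h0 | h0
  · rw [h0]; simp only [Nat.cast_zero, div_zero]; exact win_nonneg E L
  · rw [div_le_iff₀ (by exact_mod_cast h0)]
    linarith

/-! ### Choice of the sequence -/

lemma exists_next (p : ℕ → ℝ) (hp : ∀ r, 0 ≤ p r) (B : ℕ → ℝ)
    (hB : Tendsto (fun L : ℕ => B L / (L : ℝ)) atTop (𝓝 0))
    (hwin : ∀ M L : ℕ, ∑ r ∈ Finset.Ico M (M + L), p r ≤ B L)
    (S : Finset ℕ) (K : ℕ) (hK : ∀ t ∈ S, t ≤ K) (ε : ℝ) (hε : 0 < ε) :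
    ∃ y, K < y ∧ ∀ t ∈ S, p (y - t) ≤ ε := by
  by_contra hcon
  push Not at hcon
  -- every y > K has some t in S with p (y - t) > ε
  have h1 : ∀ L : ℕ, (L : ℝ) * ε ≤ S.card * B L := by
    intro L
    have h2 : ∀ y ∈ Finset.Ico (K + 1) (K + 1 + L), ε ≤ ∑ t ∈ S, p (y - t) := by
      intro y hy
      rw [Finset.mem_Ico] at hy
      obtain ⟨t, ht, htp⟩ := hcon y (by omega)
      exact htp.le.trans (Finset.single_le_sum (f := fun t => p (y - t)) (fun i _ => hp _) ht)
    have h3 : ∑ y ∈ Finset.Ico (K + 1) (K + 1 + L), ε ≤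
        ∑ y ∈ Finset.Ico (K + 1) (K + 1 + L), ∑ t ∈ S, p (y - t) := Finset.sum_le_sum h2
    rw [Finset.sum_comm] at h3
    have h4 : ∀ t ∈ S, ∑ y ∈ Finset.Ico (K + 1) (K + 1 + L), p (y - t) ≤ B L := by
      intro t ht
      have h5 : ∑ y ∈ Finset.Ico (K + 1) (K + 1 + L), p (y - t) =
          ∑ r ∈ Finset.Ico (K + 1 - t) (K + 1 - t + L), p r := by
        have htK := hK t ht
        apply Finset.sum_nbij' (fun y => y - t) (fun r => r + t)
        · intro y hy; rw [Finset.mem_Ico] at hy ⊢; omega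
        · intro y hy; rw [Finset.mem_Ico] at hy ⊢; omega
        · intro y hy; rw [Finset.mem_Ico] at hy; omega
        · intro y hy; omega
        · intro y hy; rfl
      rw [h5]
      exact hwin _ _
    have h6 := Finset.sum_le_sum h4
    rw [Finset.sum_const, nsmul_eq_mul] at h6 h3
    rw [Nat.card_Ico] at h3
    have : ((K + 1 + L - (K + 1) : ℕ) : ℝ) = L := by
      congr 1; omega
    rw [this] at h3
    exact h3.trans h6
  have h7 : Tendsto (fun L : ℕ => (S.card : ℝ) * (B L / (L : ℝ))) atTop (𝓝 ((S.card : ℝ) * 0)) :=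
    hB.const_mul _
  rw [mul_zero] at h7
  have h8 := (h7.eventually_lt_const hε).and (eventually_gt_atTop 0)
  obtain ⟨L, hL1, hL2⟩ := h8.exists
  have hL3 : (0 : ℝ) < L := by exact_mod_cast hL2
  have h9 := h1 L
  rw [← mul_div_assoc, div_lt_iff₀ hL3] at hL1
  linarith

lemma exists_seq (p : ℕ → ℝ) (hp : ∀ r, 0 ≤ p r) (B : ℕ → ℝ)
    (hB : Tendsto (fun L : ℕ => B L / (L : ℝ)) atTop (𝓝 0))
    (hwin : ∀ M L : ℕ, ∑ r ∈ Finset.Ico M (M + L), p r ≤ B L) (F : ℕ → ℕ) :
    ∃ s : ℕ → ℕ, ∀ i j, i < j →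
      F (s i) + s i < s j ∧ p (s j - s i) ≤ (1 / 8 : ℝ) ^ (j + 1) := by
  obtain ⟨f, _, hf⟩ := exists_seq_of_forall_finset_exists (α := ℕ × ℕ) (fun _ => True)
    (fun x y => x.1 < y.1 ∧ F x.2 + x.2 < y.2 ∧ p (y.2 - x.2) ≤ (1 / 8 : ℝ) ^ (y.1 + 1)) (by
      intro S _
      classical
      obtain ⟨K, hK⟩ : ∃ K : ℕ, ∀ x ∈ S, x.1 ≤ K ∧ F x.2 + x.2 ≤ K := by
        refine ⟨∑ x ∈ S, (x.1 + (F x.2 + x.2)), ?_⟩
        intro x hx
        have := Finset.single_le_sum (f := fun x : ℕ × ℕ => x.1 + (F x.2 + x.2))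
          (fun i _ => Nat.zero_le _) hx
        omega
      obtain ⟨y, hy1, hy2⟩ := exists_next p hp B hB hwin (S.image Prod.snd) K (by
        intro t ht
        rw [Finset.mem_image] at ht
        obtain ⟨x, hx, rfl⟩ := ht
        have := (hK x hx).2
        omega) ((1 / 8 : ℝ) ^ (K + 1 + 1)) (by positivity)
      refine ⟨(K + 1, y), trivial, ?_⟩
      intro x hx
      have := hK x hx
      refine ⟨by simp only; omega, by simp only; omega, ?_⟩
      exact hy2 x.2 (Finset.mem_image_of_mem _ hx))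
  have hmono : ∀ j, j ≤ (f j).1 := by
    intro j
    induction j with
    | zero => exact Nat.zero_le _
    | succ j ih =>
      have := (hf j (j + 1) (Nat.lt_succ_self j)).1
      omega
  refine ⟨fun j => (f j).2, ?_⟩
  intro i j hij
  obtain ⟨_, h2, h3⟩ := hf i j hij
  refine ⟨h2, h3.trans ?_⟩
  exact pow_le_pow_of_le_one (by norm_num) (by norm_num) (by have := hmono j; omega)

/-! ### A set of differences of an infinite set is intersective -/

lemma intersective_of_differences (s : ℕ → ℕ) (hs : StrictMono s) :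
    Intersective {r : ℕ | ∃ i j, i < j ∧ r = s j - s i} := by
  classical
  intro B hB hpos
  by_contra hcon
  push Not at hcon
  -- the translates are pairwise disjoint
  obtain ⟨k, hk⟩ : ∃ k : ℕ, 1 < (k : ℝ) * (relUpperDensity Pos B / 2) := by
    obtain ⟨k, hk⟩ := exists_nat_gt (1 / (relUpperDensity Pos B / 2))
    exact ⟨k, by rwa [div_lt_iff₀ (by linarith)] at hk⟩
  set δ := relUpperDensity Pos B / 2 with hδ
  have hδ0 : 0 < δ := by linarith
  -- frequently large density
  have hfreq : ∃ᶠ N : ℕ in atTop,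
      δ < ((B ∩ Pos ∩ Set.Icc 1 N).ncard : ℝ) / ((Pos ∩ Set.Icc 1 N).ncard : ℝ) := by
    apply frequently_lt_of_lt_limsup
    · exact isCoboundedUnder_le_of_le atTop (x := 0) (fun N => by positivity)
    · change δ < relUpperDensity Pos B
      linarith
  -- for large N, k * δ * N > N + s k
  have hlarge : ∀ᶠ N : ℕ in atTop, (N : ℝ) + s k < k * δ * N := by
    have h1 : Tendsto (fun N : ℕ => ((k : ℝ) * δ - 1) * (N : ℝ)) atTop atTop :=
      tendsto_natCast_atTop_atTop.const_mul_atTop (by linarith)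
    filter_upwards [h1.eventually_gt_atTop (s k : ℝ)] with N hN
    linarith
  obtain ⟨N, hN1, hN2, hN3⟩ := (hfreq.and_eventually (hlarge.and (eventually_gt_atTop 0))).exists
  have hN0 : (0 : ℝ) < N := by exact_mod_cast hN3
  have hpc : ((Pos ∩ Set.Icc 1 N).ncard : ℝ) = N := by
    have : Pos ∩ Set.Icc 1 N = ((Finset.Icc 1 N : Finset ℕ) : Set ℕ) := by
      ext x; simp only [Pos, Set.mem_inter_iff, Set.mem_ofPred_eq, Set.mem_Icc, Finset.coe_Icc]
      omega
    rw [this, Set.ncard_coe_finset]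
    simp
  rw [hpc, lt_div_iff₀ hN0] at hN1
  set BN : Finset ℕ := (Finset.Icc 1 N).filter (fun a => a ∈ B) with hBN
  have hBNc : ((B ∩ Pos ∩ Set.Icc 1 N).ncard : ℝ) = BN.card := by
    have : B ∩ Pos ∩ Set.Icc 1 N = (BN : Set ℕ) := by
      ext x
      simp only [Pos, Set.mem_inter_iff, Set.mem_ofPred_eq, Set.mem_Icc, hBN, Finset.coe_filter,
        Finset.mem_Icc]
      tauto
    rw [this, Set.ncard_coe_finset]
  rw [hBNc] at hN1
  -- the union of translates
  have hdisj : Set.PairwiseDisjoint (((Finset.range k) : Finset ℕ) : Set ℕ)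
      (fun i => BN.image (fun b => b + s i)) := by
    have key : ∀ i j, i < j → Disjoint (BN.image (fun b => b + s i)) (BN.image (fun b => b + s j)) := by
      intro i j hij
      rw [Finset.disjoint_left]
      intro x hx hx'
      rw [Finset.mem_image] at hx hx'
      obtain ⟨a, ha, hax⟩ := hx
      obtain ⟨b, hb, hbx⟩ := hx'
      rw [hBN, Finset.mem_filter] at ha hb
      have hsij : s i < s j := hs hij
      refine hcon (s j - s i) ⟨i, j, hij, rfl⟩ a ha.2 b hb.2 ?_
      omega
    intro i _ j _ hij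
    rcases lt_or_gt_of_ne hij with h | h
    · exact key i j h
    · exact (key j i h).symm
  have hsub : (Finset.range k).biUnion (fun i => BN.image (fun b => b + s i)) ⊆
      Finset.Icc 1 (N + s k) := by
    intro x hx
    rw [Finset.mem_biUnion] at hx
    obtain ⟨i, hi, hx⟩ := hx
    rw [Finset.mem_image] at hx
    obtain ⟨b, hb, rfl⟩ := hx
    rw [hBN, Finset.mem_filter, Finset.mem_Icc] at hb
    rw [Finset.mem_range] at hi
    have := hs hi
    rw [Finset.mem_Icc]
    omega
  have hcard := Finset.card_le_card hsub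
  rw [Finset.card_biUnion hdisj, Nat.card_Icc] at hcard
  have himg : ∀ i ∈ Finset.range k, (BN.image (fun b => b + s i)).card = BN.card := by
    intro i _
    apply Finset.card_image_of_injective
    intro a b hab
    simpa using hab
  rw [Finset.sum_congr rfl himg, Finset.sum_const, Finset.card_range, smul_eq_mul] at hcard
  have hcard' : (k : ℝ) * BN.card ≤ N + s k := by
    have : k * BN.card ≤ N + s k := by omega
    exact_mod_cast this
  have hk0 : (0 : ℝ) < k := by
    rcases Nat.eq_zero_or_pos k with h | h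
    · rw [h] at hk; simp at hk; linarith
    · exact_mod_cast h
  have := mul_lt_mul_of_pos_left hN1 hk0
  nlinarith

/-! ### The main result -/

/-- For every infinite `E ⊆ {1, 2, 3, ...}` of upper Banach density zero there is an intersective
set `R ⊆ {1, 2, 3, ...}` that is not `E`-intersective. -/
theorem result (E : Set ℕ) (hE : E ⊆ Pos) (hinf : E.Infinite)
    (hd : upperBanachDensity E = 0) :
    ∃ R : Set ℕ, R ⊆ Pos ∧ Intersective R ∧ ¬ RelIntersective E R := by
  classical
  have hwin := tendsto_win E hd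
  -- a subsequence along which the proportions converge
  obtain ⟨p, _, φ, hφ, hlim⟩ := (isCompact_univ_pi (s := fun _ : ℕ => Set.Icc (0 : ℝ) 1)
    (fun _ => isCompact_Icc)).tendsto_subseq (x := fun N => fun r => PN E N r)
    (fun N => by
      intro r _
      exact ⟨PN_nonneg E N r, PN_le_one E N r⟩)
  rw [tendsto_pi_nhds] at hlim
  have hp0 : ∀ r, 0 ≤ p r := fun r => ge_of_tendsto' (hlim r) (fun n => PN_nonneg E _ r)
  have hpwin : ∀ M L : ℕ, ∑ r ∈ Finset.Ico M (M + L), p r ≤ win E L := by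
    intro M L
    refine le_of_tendsto' (tendsto_finsetSum _ (fun r _ => hlim r)) ?_
    intro n
    exact window_sum_PN E hE _ M L
  -- the function F
  have hF : ∀ s : ℕ, ∃ N : ℕ, s ≤ N ∧ 0 < (EN E N).card ∧
      ∀ r ≤ s, PN E N r ≤ p r + 1 / (4 * ((s : ℝ) + 1) ^ 2) := by
    intro s
    have h1 : ∀ᶠ n in atTop, ∀ r ∈ Finset.range (s + 1),
        PN E (φ n) r < p r + 1 / (4 * ((s : ℝ) + 1) ^ 2) := by
      rw [Filter.eventually_all_finset]
      intro r _
      apply (hlim r).eventually_lt_const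
      have : (0 : ℝ) < 1 / (4 * ((s : ℝ) + 1) ^ 2) := by positivity
      linarith
    obtain ⟨e, he, _⟩ := hinf.exists_gt 0
    have h2 : ∀ᶠ n in atTop, max s e ≤ φ n := hφ.tendsto_atTop.eventually_ge_atTop _
    obtain ⟨n, hn1, hn2⟩ := (h1.and h2).exists
    refine ⟨φ n, (le_max_left _ _).trans hn2, ?_, ?_⟩
    · rw [Finset.card_pos]
      refine ⟨e, ?_⟩
      rw [EN, Finset.mem_filter, Finset.mem_Icc]
      exact ⟨⟨hE he, (le_max_right _ _).trans hn2⟩, he⟩
    · intro r hr
      exact (hn1 r (by rw [Finset.mem_range]; omega)).le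
  choose F hF1 hF2 hF3 using hF
  obtain ⟨s, hs⟩ := exists_seq p hp0 (win E) hwin hpwin F
  have hsmono : StrictMono s := by
    apply strictMono_nat_of_lt_succ
    intro n
    have := (hs n (n + 1) (Nat.lt_succ_self n)).1
    omega
  have hsge : ∀ j, j ≤ s j := hsmono.id_le
  set R : Set ℕ := {r : ℕ | ∃ i j, i < j ∧ r = s j - s i} with hR
  refine ⟨R, ?_, intersective_of_differences s hsmono, ?_⟩
  · rintro r ⟨i, j, hij, rfl⟩
    have := hsmono hij
    change 1 ≤ s j - s i
    omega
  · -- the set A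
    intro hcon
    set A : Set ℕ := {a | a ∈ E ∧ ∀ r ∈ R, a - r ∉ E} with hA
    have hAE : A ⊆ E := fun a ha => ha.1
    have hkey : ∀ j : ℕ, (1 / 2 : ℝ) ≤
        ((A ∩ E ∩ Set.Icc 1 (F (s j))).ncard : ℝ) / ((E ∩ Set.Icc 1 (F (s j))).ncard : ℝ) := by
      intro j
      set N := F (s j) with hN
      have hc0 : (0 : ℝ) < ((EN E N).card : ℝ) := by exact_mod_cast hF2 (s j)
      have hEc : ((E ∩ Set.Icc 1 N).ncard : ℝ) = (EN E N).card := by
        have : E ∩ Set.Icc 1 N = ((EN E N : Finset ℕ) : Set ℕ) := by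
          ext x
          simp only [EN, Set.mem_inter_iff, Set.mem_Icc, Finset.coe_filter, Finset.mem_Icc,
            Set.mem_ofPred_eq]
          tauto
        rw [this, Set.ncard_coe_finset]
      have hAc : ((A ∩ E ∩ Set.Icc 1 N).ncard : ℝ) = ((EN E N).filter (fun a => a ∈ A)).card := by
        have : A ∩ E ∩ Set.Icc 1 N = (((EN E N).filter (fun a => a ∈ A) : Finset ℕ) : Set ℕ) := by
          ext x
          simp only [EN, Set.mem_inter_iff, Set.mem_Icc, Finset.coe_filter, Finset.mem_Icc,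
            Set.mem_ofPred_eq, Finset.mem_filter]
          tauto
        rw [this, Set.ncard_coe_finset]
      rw [hEc, hAc, le_div_iff₀ hc0]
      -- complement
      have hcompl : ((EN E N).filter (fun a => ¬ a ∈ A)) ⊆
          (Finset.range (j + 1)).biUnion (fun b => (Finset.range b).biUnion
            (fun i => DN E N (s b - s i))) := by
        intro a ha
        rw [Finset.mem_filter] at ha
        obtain ⟨ha1, ha2⟩ := ha
        have ha3 : a ∈ E ∧ 1 ≤ a ∧ a ≤ N := by
          rw [EN, Finset.mem_filter, Finset.mem_Icc] at ha1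
          tauto
        have ha4 : ∃ r ∈ R, a - r ∈ E := by
          by_contra h
          push Not at h
          exact ha2 ⟨ha3.1, h⟩
        obtain ⟨r, ⟨i, b, hib, rfl⟩, hr⟩ := ha4
        have hpos : 1 ≤ a - (s b - s i) := hE hr
        have hbj : b ≤ j := by
          by_contra hbj
          push Not at hbj
          -- s b > F (s j) + s j
          have h1 := (hs j b hbj).1
          have h2 := (hs i b hib).1
          -- s b - s i > N
          have h3 : s i + N < s b := by
            -- b - 1 ≥ j, i ≤ b - 1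
            rcases le_or_gt i j with hij | hij
            · have := hsmono.monotone hij
              omega
            · have h4 := (hs j i hij).1
              have h5 : F (s i) ≥ s i := hF1 (s i)
              omega
          omega
        rw [Finset.mem_biUnion]
        refine ⟨b, by rw [Finset.mem_range]; omega, ?_⟩
        rw [Finset.mem_biUnion]
        refine ⟨i, by rw [Finset.mem_range]; omega, ?_⟩
        rw [DN, Finset.mem_filter]
        exact ⟨ha1, hr⟩
      have hcard1 : (((EN E N).filter (fun a => ¬ a ∈ A)).card : ℝ) ≤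
          ∑ b ∈ Finset.range (j + 1), ∑ i ∈ Finset.range b, ((DN E N (s b - s i)).card : ℝ) := by
        have h1 := (Finset.card_le_card hcompl).trans Finset.card_biUnion_le
        have h2 : ∑ b ∈ Finset.range (j + 1), ((Finset.range b).biUnion
            (fun i => DN E N (s b - s i))).card ≤
            ∑ b ∈ Finset.range (j + 1), ∑ i ∈ Finset.range b, (DN E N (s b - s i)).card :=
          Finset.sum_le_sum (fun b _ => Finset.card_biUnion_le)
        exact_mod_cast h1.trans h2
      have hcard2 : ∀ b ∈ Finset.range (j + 1), ∀ i ∈ Finset.range b,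
          ((DN E N (s b - s i)).card : ℝ) ≤
          ((1 / 8 : ℝ) ^ (b + 1) + 1 / (4 * ((s j : ℝ) + 1) ^ 2)) * (EN E N).card := by
        intro b hb i hi
        rw [Finset.mem_range] at hb hi
        have h1 : s b ≤ s j := hsmono.monotone (by omega)
        have h2 := hF3 (s j) (s b - s i) (by omega)
        have h3 := (hs i b hi).2
        have h4 : PN E N (s b - s i) ≤ (1 / 8 : ℝ) ^ (b + 1) + 1 / (4 * ((s j : ℝ) + 1) ^ 2) :=
          h2.trans (by linarith)
        unfold PN at h4
        rwa [div_le_iff₀ hc0] at h4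
      have hcard3 : ∑ b ∈ Finset.range (j + 1), ∑ i ∈ Finset.range b,
          ((DN E N (s b - s i)).card : ℝ) ≤
          ∑ b ∈ Finset.range (j + 1), (b : ℝ) *
            (((1 / 8 : ℝ) ^ (b + 1) + 1 / (4 * ((s j : ℝ) + 1) ^ 2)) * (EN E N).card) := by
        apply Finset.sum_le_sum
        intro b hb
        have := Finset.sum_le_sum (hcard2 b hb)
        rw [Finset.sum_const, Finset.card_range, nsmul_eq_mul] at this
        exact this
      have hsum1 : ∀ n : ℕ, ∑ b ∈ Finset.range n, (b : ℝ) * (1 / 8 : ℝ) ^ (b + 1) ≤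
          1 / 4 - (1 / 4 : ℝ) ^ (n + 1) := by
        intro n
        induction n with
        | zero => norm_num
        | succ n ih =>
          rw [Finset.sum_range_succ]
          have h1 : (n : ℝ) * (1 / 8 : ℝ) ^ (n + 1) ≤ (1 / 4 : ℝ) ^ (n + 1) / 2 := by
            have h2 : (n : ℝ) ≤ 2 ^ n := by exact_mod_cast Nat.lt_two_pow_self.le
            have h3 : (1 / 4 : ℝ) ^ (n + 1) / 2 = 2 ^ n * (1 / 8 : ℝ) ^ (n + 1) := by
              rw [pow_succ, pow_succ]
              have : (1 / 4 : ℝ) ^ n = 2 ^ n * (1 / 8 : ℝ) ^ n := by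
                rw [← mul_pow]; norm_num
              rw [this]; ring
            rw [h3]
            exact mul_le_mul_of_nonneg_right h2 (by positivity)
          have h4 : (1 / 4 : ℝ) ^ (n + 1 + 1) = (1 / 4 : ℝ) ^ (n + 1) / 4 := by
            rw [pow_succ]; ring
          have h5 : (0 : ℝ) < (1 / 4 : ℝ) ^ (n + 1) := by positivity
          rw [h4]
          linarith
      have hsum2 : ∀ n : ℕ, ∑ b ∈ Finset.range n, (b : ℝ) ≤ (n : ℝ) ^ 2 := by
        intro n
        induction n with
        | zero => norm_num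
        | succ n ih =>
          rw [Finset.sum_range_succ]
          push_cast
          nlinarith [(Nat.cast_nonneg n : (0 : ℝ) ≤ n)]
      have htot : ∑ b ∈ Finset.range (j + 1), (b : ℝ) *
            (((1 / 8 : ℝ) ^ (b + 1) + 1 / (4 * ((s j : ℝ) + 1) ^ 2)) * (EN E N).card) ≤
            (1 / 2 : ℝ) * (EN E N).card := by
        have h1 : ∑ b ∈ Finset.range (j + 1), (b : ℝ) *
            (((1 / 8 : ℝ) ^ (b + 1) + 1 / (4 * ((s j : ℝ) + 1) ^ 2)) * (EN E N).card) =
            (∑ b ∈ Finset.range (j + 1), (b : ℝ) * (1 / 8 : ℝ) ^ (b + 1) +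
              (∑ b ∈ Finset.range (j + 1), (b : ℝ)) * (1 / (4 * ((s j : ℝ) + 1) ^ 2))) *
              (EN E N).card := by
          rw [Finset.sum_mul, ← Finset.sum_add_distrib, Finset.sum_mul]
          apply Finset.sum_congr rfl
          intro b _
          ring
        rw [h1]
        apply mul_le_mul_of_nonneg_right _ hc0.le
        have h2 := hsum1 (j + 1)
        have h3 := hsum2 (j + 1)
        have h4 : (0 : ℝ) < (1 / 4 : ℝ) ^ (j + 1 + 1) := by positivity
        have h5 : ((j + 1 : ℕ) : ℝ) ≤ (s j : ℝ) + 1 := by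
          have := hsge j
          push_cast
          have : (j : ℝ) ≤ s j := by exact_mod_cast this
          linarith
        have h6 : ((j + 1 : ℕ) : ℝ) ^ 2 ≤ ((s j : ℝ) + 1) ^ 2 :=
          pow_le_pow_left₀ (Nat.cast_nonneg _) h5 2
        have h7 : (∑ b ∈ Finset.range (j + 1), (b : ℝ)) * (1 / (4 * ((s j : ℝ) + 1) ^ 2)) ≤
            1 / 4 := by
          have h8 : (0 : ℝ) < ((s j : ℝ) + 1) ^ 2 := by positivity
          rw [mul_one_div, div_le_div_iff₀ (by positivity) (by norm_num)]
          nlinarith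
        linarith
      have hsplit : (((EN E N).filter (fun a => a ∈ A)).card : ℝ) +
          (((EN E N).filter (fun a => ¬ a ∈ A)).card : ℝ) = (EN E N).card := by
        exact_mod_cast Finset.card_filter_add_card_filter_not (s := EN E N) (fun a => a ∈ A)
      have := hcard1.trans (hcard3.trans htot)
      linarith
    have hdens : (1 / 2 : ℝ) ≤ relUpperDensity E A := by
      unfold relUpperDensity
      apply le_limsup_of_frequently_le
      · rw [frequently_atTop]
        intro n
        refine ⟨F (s n), (hsge n).trans (hF1 (s n)), hkey n⟩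
      · refine isBoundedUnder_of ⟨1, fun N => ?_⟩
        apply div_le_one_of_le₀
        · have : A ∩ E ∩ Set.Icc 1 N ⊆ E ∩ Set.Icc 1 N := fun x hx => ⟨hx.1.2, hx.2⟩
          exact_mod_cast Set.ncard_le_ncard this ((Set.finite_Icc _ _).inter_of_right _)
        · positivity
    obtain ⟨r, hr, a, ha, b, hb, hrab⟩ := hcon A hAE (by linarith)
    have hab : a - r = b := by omega
    exact ha.2 r hr (hab ▸ hb.1)

end Pool.Agent.Results.MP_7e65d6_nt.NotRelIntersective
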